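import Pool.Agent.KS6_37.MG.Sum

set_option autoImplicit false

/-!
# MP_1c795d_co: the magnitude homology of a real arrangement is free, with explicit ranks
-/

namespace Pool.Agent.Results.MP_1c795d_co.RankFormula

open Q138.TopeMag Q138.MagHom Q161.Mg Module Pool.Agent.KS6_37.MG

/-! ### Definitions -/

/-- `X` is a covector (the sign vector of a point). The covectors correspond to the faces. -/
def IsFace {E ι : Type} [AddCommGroup E] [Module ℝ E] (f : ι → Module.Dual ℝ E)
    (X : ι → SignType) : Prop := ∃ p : E, ∀ i, SignType.sign (f i p) = X i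

/-- The face order: the face `X` is contained in the closure of the face `Y`. -/
def FaceLE {ι : Type} (X Y : ι → SignType) : Prop := ∀ i, X i = 0 ∨ X i = Y i

/-- The indices of the hyperplanes that contain the face `X`. -/
def zer {ι : Type} [Fintype ι] (X : ι → SignType) : Finset ι := Finset.univ.filter fun i => X i = 0

/-- The codimension of the intersection of the hyperplanes with index in `S`. -/
noncomputable def cd {E ι : Type} [AddCommGroup E] [Module ℝ E] (f : ι → Module.Dual ℝ E)
    (S : Finset ι) : ℕ := finrank ℝ E - finrank ℝ (⨅ i ∈ S, LinearMap.ker (f i) : Submodule ℝ E)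

/-- `C` is a chamber and `L = [F_1, …, F_h]` is a multichain `F_1 ≤ … ≤ F_h` of proper faces of
`C`; the codimensions of (the spans of) the `F_j` sum up to `k`, and the numbers of hyperplanes
containing `F_j` sum up to `l`. -/
structure IsFlag {E ι : Type} [AddCommGroup E] [Module ℝ E] [Fintype ι]
    (f : ι → Module.Dual ℝ E) (k l : ℕ) (C : ι → SignType) (L : List (ι → SignType)) : Prop where
  chamber : IsFace f C ∧ ∀ i, C i ≠ 0
  face : ∀ F ∈ L, IsFace f F
  le : ∀ F ∈ L, FaceLE F C
  proper : ∀ F ∈ L, F ≠ C
  chain : L.Pairwise FaceLE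
  codim : (L.map fun F => cd f (zer F)).sum = k
  hyp : (L.map fun F => (zer F).card).sum = l

/-- Cycles `Z` modulo boundaries `B`, i.e. `Z / (B ∩ Z)`. -/
def HQ {M : Type} [AddCommGroup M] [Module ℤ M] (Z B : Submodule ℤ M) : Type :=
  Z ⧸ B.submoduleOf Z

noncomputable instance {M : Type} [AddCommGroup M] [Module ℤ M] (Z B : Submodule ℤ M) :
    AddCommGroup (HQ Z B) :=
  @Submodule.Quotient.addCommGroup ℤ Z _ _ Z.module (B.submoduleOf Z)

/-- The magnitude homology group `MH_{k,l}` of the arrangement `A`, i.e. of its tope graph. -/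
def MHA {d : ℕ} (A : Arrangement d) (k l : ℕ) : Type :=
  HQ (cycles A.topeGraph k l) (boundaries A.topeGraph k l)

noncomputable instance {d : ℕ} (A : Arrangement d) (k l : ℕ) : AddCommGroup (MHA A k l) :=
  instAddCommGroupHQ (cycles A.topeGraph k l) (boundaries A.topeGraph k l)

/-! ### The lists -/

section lists
variable {ι : Type} [Fintype ι]

def row (D : ι → SignType) (lam : ι → ℕ) (j : ℕ) : ι → SignType :=
  fun i => if j < lam i then 0 else D i

def cnt (L : List (ι → SignType)) (i : ι) : ℕ := L.countP fun F => F i = 0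

def hgt (lam : ι → ℕ) : ℕ := Finset.univ.sup lam

def rows (D : ι → SignType) (lam : ι → ℕ) : List (ι → SignType) :=
  (List.range (hgt lam)).map (row D lam)

lemma le_hgt (lam : ι → ℕ) (i : ι) : lam i ≤ hgt lam :=
  Finset.le_sup (f := lam) (Finset.mem_univ i)

lemma countP_lt (n m : ℕ) : (List.range n).countP (fun j => decide (j < m)) = min n m := by
  induction n with
  | zero => simp
  | succ n ih =>
    rw [List.range_succ, List.countP_append, ih, List.countP_singleton]
    by_cases h : n < m
    · rw [if_pos (by simpa using h)]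
      omega
    · rw [if_neg (by simpa using h)]
      omega

lemma cnt_rows {D : ι → SignType} (hD : ∀ i, D i ≠ 0) (lam : ι → ℕ) : cnt (rows D lam) = lam := by
  funext i
  unfold cnt rows
  rw [List.countP_map]
  have : ((fun F : ι → SignType => decide (F i = 0)) ∘ row D lam) =
      fun j => decide (j < lam i) := by
    funext j
    simp only [Function.comp_apply, row, decide_eq_decide]
    split_ifs with h
    · exact ⟨fun _ => h, fun _ => rfl⟩
    · exact ⟨fun h' => absurd h' (hD i), fun h' => absurd h' h⟩
  rw [this, countP_lt, min_eq_right (le_hgt lam i)]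

lemma rows_pairwise (D : ι → SignType) (lam : ι → ℕ) : (rows D lam).Pairwise FaceLE := by
  unfold rows
  rw [List.pairwise_map]
  refine List.pairwise_lt_range.imp fun {a b} hab i => ?_
  unfold row
  by_cases h : a < lam i
  · exact Or.inl (if_pos h)
  · rw [if_neg h, if_neg (by omega)]
    exact Or.inr rfl

lemma rows_le (D : ι → SignType) (lam : ι → ℕ) : ∀ F ∈ rows D lam, FaceLE F D := by
  intro F hF i
  obtain ⟨j, _, rfl⟩ := List.mem_map.1 hF
  unfold row
  by_cases h : j < lam i
  · exact Or.inl (if_pos h)
  · exact Or.inr (if_neg h)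

lemma rows_ne {D : ι → SignType} (hD : ∀ i, D i ≠ 0) (lam : ι → ℕ) : ∀ F ∈ rows D lam, F ≠ D := by
  intro F hF h
  obtain ⟨j, hj, rfl⟩ := List.mem_map.1 hF
  rw [List.mem_range] at hj
  obtain ⟨i, _, hi⟩ := (Finset.lt_sup_iff (f := lam)).1 hj
  have := congrFun h i
  unfold row at this
  rw [if_pos hi] at this
  exact hD i this.symm

lemma eq_rows (D : ι → SignType) : ∀ L : List (ι → SignType), L.Pairwise FaceLE →
    (∀ F ∈ L, FaceLE F D) → L = (List.range L.length).map (row D (cnt L)) := by
  intro L
  induction L with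
  | nil => intros; rfl
  | cons F L ih =>
    intro hp hle
    rw [List.pairwise_cons] at hp
    have ih' := ih hp.2 fun F' hF' => hle F' (List.mem_cons_of_mem _ hF')
    have hc : ∀ i, cnt (F :: L) i = cnt L i + if F i = 0 then 1 else 0 := by
      intro i
      unfold cnt
      rw [List.countP_cons]
      by_cases h : F i = 0 <;> simp [h]
    have hz : ∀ i, F i ≠ 0 → cnt L i = 0 := by
      intro i hi
      unfold cnt
      rw [List.countP_eq_zero]
      intro F' hF' h
      rw [decide_eq_true_eq] at h
      rcases hp.1 F' hF' i with h1 | h1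
      · exact hi h1
      · exact hi (h1.trans h)
    rw [List.length_cons, List.range_succ_eq_map, List.map_cons, List.map_map]
    congr 1
    · funext i
      unfold row
      rw [hc]
      by_cases h : F i = 0
      · rw [if_pos h, if_pos (by omega), h]
      · rw [if_neg h, hz i h, if_neg (by omega)]
        exact (hle F List.mem_cons_self i).resolve_left h
    · conv_lhs => rw [ih']
      refine List.map_congr_left fun j _ => ?_
      funext i
      simp only [Function.comp_apply]
      unfold row
      rw [hc]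
      by_cases h : F i = 0
      · rw [if_pos h]
        by_cases h2 : j < cnt L i
        · rw [if_pos h2, if_pos (by omega)]
        · rw [if_neg h2, if_neg (by omega)]
      · rw [if_neg h, hz i h, if_neg (by omega), if_neg (by omega)]

lemma hgt_cnt {D : ι → SignType} {L : List (ι → SignType)} (hp : L.Pairwise FaceLE)
    (hle : ∀ F ∈ L, FaceLE F D) (hne : ∀ F ∈ L, F ≠ D) : hgt (cnt L) = L.length := by
  apply le_antisymm
  · exact Finset.sup_le fun i _ => List.countP_le_length
  · rcases Nat.eq_zero_or_pos L.length with h0 | h0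
    · rw [h0]
      exact Nat.zero_le _
    · have e := eq_rows D L hp hle
      have h1 : row D (cnt L) (L.length - 1) ∈ (List.range L.length).map (row D (cnt L)) :=
        List.mem_map_of_mem (List.mem_range.2 (by omega))
      rw [← e] at h1
      have h2 := hne _ h1
      obtain ⟨i, hi⟩ := Function.ne_iff.1 h2
      unfold row at hi
      by_cases h3 : L.length - 1 < cnt L i
      · have := le_hgt (cnt L) i
        omega
      · rw [if_neg h3] at hi
        exact absurd rfl hi

lemma rows_cnt {D : ι → SignType} {L : List (ι → SignType)} (hp : L.Pairwise FaceLE)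
    (hle : ∀ F ∈ L, FaceLE F D) (hne : ∀ F ∈ L, F ≠ D) : rows D (cnt L) = L := by
  unfold rows
  rw [hgt_cnt hp hle hne]
  exact (eq_rows D L hp hle).symm

lemma sum_map_range (h : ℕ → ℕ) (n : ℕ) : ((List.range n).map h).sum = ∑ j ∈ Finset.range n, h j := by
  induction n with
  | zero => rfl
  | succ n ih => rw [List.range_succ, List.map_append, List.sum_append, ih, Finset.sum_range_succ]; simp

lemma sum_rows {D : ι → SignType} (hD : ∀ i, D i ≠ 0) (lam : ι → ℕ) (g : Finset ι → ℕ)
    (hg : g ∅ = 0) (N : ℕ) (hN : hgt lam ≤ N) :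
    ((rows D lam).map fun F => g (zer F)).sum =
      ∑ j ∈ Finset.range N, g (Finset.univ.filter fun i => j < lam i) := by
  unfold rows
  rw [List.map_map, sum_map_range]
  have h1 : ∀ j, ((fun F => g (zer F)) ∘ row D lam) j =
      g (Finset.univ.filter fun i => j < lam i) := by
    intro j
    simp only [Function.comp_apply]
    congr 1
    ext i
    simp only [zer, row, Finset.mem_filter, Finset.mem_univ, true_and]
    split_ifs with h
    · exact ⟨fun _ => h, fun _ => rfl⟩
    · exact ⟨fun h' => absurd h' (hD i), fun h' => absurd h' h⟩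
  rw [Finset.sum_congr rfl fun j _ => h1 j]
  apply Finset.sum_subset (Finset.range_mono hN)
  intro j _ hj
  rw [Finset.mem_range, not_lt] at hj
  rw [Finset.filter_false_of_mem, hg]
  intro i _
  have := le_hgt lam i
  omega

lemma hgt_le_sum (lam : ι → ℕ) : hgt lam ≤ ∑ i, lam i :=
  Finset.sup_le fun i _ => Finset.single_le_sum (f := lam) (fun i _ => Nat.zero_le _)
    (Finset.mem_univ i)

lemma sum_card (lam : ι → ℕ) : ∑ j ∈ Finset.range (∑ i, lam i),
    (Finset.univ.filter fun i => j < lam i).card = ∑ i, lam i := by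
  simp only [Finset.card_filter]
  rw [Finset.sum_comm]
  refine Finset.sum_congr rfl fun i _ => ?_
  rw [← Finset.card_filter]
  have : (Finset.range (∑ i, lam i)).filter (fun j => j < lam i) = Finset.range (lam i) := by
    ext j
    have := (le_hgt lam i).trans (hgt_le_sum lam)
    simp only [Finset.mem_filter, Finset.mem_range]
    omega
  rw [this, Finset.card_range]

end lists

/-! ### Good pairs and flags -/

section flags
variable {E : Type} [AddCommGroup E] [Module ℝ E] {ι : Type} [Fintype ι] [DecidableEq ι]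
  {f : ι → Module.Dual ℝ E}

lemma cd_eq (S : Finset ι) : cd f S = rk f S := rfl

lemma row_face {D : ι → SignType} {lam : ι → ℕ} (h : gd f D lam) (j : ℕ) :
    IsFace f (row D lam j) := by
  have key : ∃ p : E, (∀ i, j < lam i → f i p = 0) ∧
      ∀ i, lam i ≤ j → SignType.sign (f i p) = D i := by
    induction j with
    | zero =>
      obtain ⟨q, h0, h1⟩ := h.2 0
      exact ⟨q, h0, fun i hi => h1 i (Nat.le_zero.1 hi)⟩
    | succ j ih =>
      obtain ⟨p', h0', h1'⟩ := ih
      obtain ⟨q, h0, h1⟩ := h.2 (j + 1)
      obtain ⟨ε, hε, he⟩ := pert (f := f) (Finset.univ.filter fun i => lam i ≤ j) p' q D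
        (fun i hi => h1' i (Finset.mem_filter.1 hi).2) (fun i _ h0 => absurd h0 (h.1 i))
      refine ⟨p' + ε • q, fun i hi => ?_, fun i hi => ?_⟩
      · rw [map_add, map_smul, h0' i (by omega), h0 i hi, smul_zero, add_zero]
      · rcases Nat.lt_or_ge j (lam i) with h2 | h2
        · have h3 : lam i = j + 1 := by omega
          rw [map_add, map_smul, h0' i h2, zero_add, smul_eq_mul, sign_mul, sign_pos hε, one_mul]
          exact h1 i h3
        · exact he ε (le_of_eq (abs_of_pos hε)) i (Finset.mem_filter.2 ⟨Finset.mem_univ i, h2⟩)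
  obtain ⟨p, h0, h1⟩ := key
  refine ⟨p, fun i => ?_⟩
  unfold row
  split_ifs with hj
  · rw [h0 i hj, sign_zero]
  · exact h1 i (by omega)

lemma gd_of_rows {D : ι → SignType} {lam : ι → ℕ} (hD : ∀ i, D i ≠ 0) (hC : IsFace f D)
    (h : ∀ F ∈ rows D lam, IsFace f F) : gd f D lam := by
  refine ⟨hD, fun j => ?_⟩
  by_cases hj : j < hgt lam
  · obtain ⟨p, hp⟩ := h _ (List.mem_map_of_mem (f := row D lam) (List.mem_range.2 hj))
    refine ⟨p, fun i hi => ?_, fun i hi => ?_⟩
    · have := hp i
      unfold row at this
      rw [if_pos hi] at this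
      exact sign_eq_zero_iff.1 this
    · have := hp i
      unfold row at this
      rwa [if_neg (by omega)] at this
  · obtain ⟨p, hp⟩ := hC
    refine ⟨p, fun i hi => ?_, fun i _ => hp i⟩
    have := le_hgt lam i
    omega

open Classical in
/-- the good pairs -/
noncomputable def good (f : ι → Module.Dual ℝ E) (k l : ℕ) :
    Finset ((ι → SignType) × (ι → ℕ)) :=
  ((Finset.univ : Finset (ι → SignType)) ×ˢ (Finset.univ : Finset ι).piAntidiag l).filter
    fun c => k = kap f c.2 ∧ gd f c.1 c.2

lemma flags_eq (k l : ℕ) : {c : (ι → SignType) × List (ι → SignType) | IsFlag f k l c.1 c.2} =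
    (fun c : (ι → SignType) × (ι → ℕ) => (c.1, rows c.1 c.2)) '' (good f k l : Set _) := by
  ext ⟨C, L⟩
  simp only [Set.mem_setOf_eq, Set.mem_image, Finset.mem_coe, good, Finset.mem_filter,
    Finset.mem_product, Finset.mem_univ, true_and, Finset.mem_piAntidiag, Prod.exists,
    Prod.mk.injEq]
  constructor
  · intro h
    have hr := rows_cnt h.chain h.le h.proper
    have hk := h.codim
    have hl := h.hyp
    rw [← hr] at hk hl
    rw [sum_rows h.chamber.2 (cnt L) (fun S => S.card) Finset.card_empty _ (hgt_le_sum _),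
      sum_card] at hl
    rw [sum_rows h.chamber.2 (cnt L) (fun S => cd f S) rk_empty _ (hgt_le_sum _)] at hk
    refine ⟨C, cnt L, ⟨⟨hl, fun i _ => trivial⟩, hk.symm, ?_⟩, rfl, hr⟩
    refine gd_of_rows h.chamber.2 h.chamber.1 fun F hF => h.face F (hr ▸ hF)
  · rintro ⟨D, lam, ⟨⟨hl, _⟩, hk, hg⟩, rfl, rfl⟩
    obtain ⟨hD, p, hp⟩ := gd_isT hg
    refine ⟨⟨⟨p, hp⟩, hD⟩, fun F hF => ?_, rows_le D lam, rows_ne hD lam, rows_pairwise D lam, ?_, ?_⟩
    · obtain ⟨j, _, rfl⟩ := List.mem_map.1 hF
      exact row_face hg j
    · rw [sum_rows hD lam (fun S => cd f S) rk_empty _ (hgt_le_sum _)]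
      exact hk.symm
    · rw [sum_rows hD lam (fun S => S.card) Finset.card_empty _ (hgt_le_sum _), sum_card]
      exact hl

lemma gd_of_good {k l : ℕ} {c : (ι → SignType) × (ι → ℕ)} (h : c ∈ good f k l) :
    gd f c.1 c.2 := by
  classical
  unfold good at h
  rw [Finset.mem_filter] at h
  exact h.2.2

lemma good_inj (k l : ℕ) : Set.InjOn
    (fun c : (ι → SignType) × (ι → ℕ) => (c.1, rows c.1 c.2)) (good f k l : Set _) := by
  rintro ⟨D, lam⟩ h ⟨D', lam'⟩ h' e
  have h1 : gd f D lam := gd_of_good (Finset.mem_coe.1 h)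
  have e1 : D = D' := congrArg Prod.fst e
  have e2 : rows D lam = rows D' lam' := congrArg Prod.snd e
  subst e1
  rw [← cnt_rows h1.1 lam, ← cnt_rows h1.1 lam', e2]

lemma flags_card (k l : ℕ) :
    {c : (ι → SignType) × List (ι → SignType) | IsFlag f k l c.1 c.2}.Finite ∧
    {c : (ι → SignType) × List (ι → SignType) | IsFlag f k l c.1 c.2}.ncard = (good f k l).card := by
  rw [flags_eq]
  exact ⟨(Finset.finite_toSet _).image _, by
    rw [Set.ncard_image_of_injOn (good_inj k l), Set.ncard_coe_finset]⟩

lemma good_card (k l : ℕ) : ((good f k l).card : ℤ) =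
    ∑ lam ∈ Finset.piAntidiag (Finset.univ : Finset ι) l,
      if k = kap f lam then ng f lam else 0 := by
  classical
  unfold good
  rw [Finset.card_filter, Finset.sum_product_right]
  push_cast
  refine Finset.sum_congr rfl fun lam _ => ?_
  by_cases h : k = kap f lam
  · rw [if_pos h]
    unfold ng
    refine Finset.sum_congr rfl fun D _ => ?_
    unfold ib
    by_cases h2 : gd f D lam
    · rw [if_pos ⟨h, h2⟩, if_pos h2]
    · rw [if_neg fun h3 => h2 h3.2, if_neg h2]
  · rw [if_neg h]
    exact Finset.sum_eq_zero fun D _ => if_neg fun h3 => h h3.1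

/-! ### The Boolean case -/

lemma rk_le_card [Module.Finite ℝ E] (S : Finset ι) : rk f S ≤ S.card := by
  induction S using Finset.induction_on with
  | empty => rw [rk_empty]; exact Nat.zero_le _
  | insert i S hi ih =>
    rw [Finset.card_insert_of_notMem hi]
    by_cases h : ∀ v ∈ NN f S, f i v = 0
    · rw [rk_insert_same h]
      omega
    · push Not at h
      obtain ⟨v, hv, hvi⟩ := h
      rw [rk_insert_succ hv hvi]
      omega

lemma rk_of_li [Module.Finite ℝ E] (hf : LinearIndependent ℝ f) (S : Finset ι) :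
    rk f S = S.card := by
  induction S using Finset.induction_on with
  | empty => rw [rk_empty, Finset.card_empty]
  | insert i S hi ih =>
    rw [Finset.card_insert_of_notMem hi, ← ih]
    have h : ¬ ∀ v ∈ NN f S, f i v = 0 := by
      intro h
      have h1 : (⨅ j : S, LinearMap.ker (f j)) ≤ LinearMap.ker (f i) := by
        intro v hv
        rw [Submodule.mem_iInf] at hv
        exact h v (mem_NN.2 fun j hj => hv ⟨j, hj⟩)
      have h2 := mem_span_of_iInf_ker_le_ker h1
      have h3 : Set.range (fun j : S => f j) = f '' (S : Set ι) := by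
        ext g
        simp
      rw [h3] at h2
      exact hf.notMem_span_image (s := (S : Set ι)) (x := i) (by simpa using hi) h2
    push Not at h
    obtain ⟨v, hv, hvi⟩ := h
    exact rk_insert_succ hv hvi

lemma rk_lt_of_not_li [Module.Finite ℝ E] (hf : ¬ LinearIndependent ℝ f) :
    rk f Finset.univ < (Finset.univ : Finset ι).card := by
  rw [linearIndependent_iff_notMem_span] at hf
  push Not at hf
  obtain ⟨i, hi⟩ := hf
  have h1 : ∀ v ∈ NN f (Finset.univ.erase i), f i v = 0 := by
    intro v hv
    have h2 : Submodule.span ℝ (f '' (Set.univ \ {i})) ≤ LinearMap.ker (Module.Dual.eval ℝ E v) := by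
      rw [Submodule.span_le]
      rintro _ ⟨j, hj, rfl⟩
      exact mem_NN.1 hv j (Finset.mem_erase.2 ⟨fun h => hj.2 h, Finset.mem_univ j⟩)
    exact h2 hi
  have h3 := rk_insert_same h1
  rw [Finset.insert_erase (Finset.mem_univ i)] at h3
  rw [h3]
  exact (rk_le_card _).trans_lt (Finset.card_lt_card (Finset.erase_ssubset (Finset.mem_univ i)))

lemma flag_eq_of_li [Module.Finite ℝ E] (hf : LinearIndependent ℝ f) {k l : ℕ} {C : ι → SignType}
    {L : List (ι → SignType)} (h : IsFlag f k l C L) : k = l := by
  rw [← h.codim, ← h.hyp]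
  congr 1
  refine List.map_congr_left fun F _ => ?_
  exact rk_of_li hf _

lemma exists_flag [Nonempty ι] (h0 : ∀ i, f i ≠ 0) :
    ∃ C, IsFlag f (rk f Finset.univ) (Finset.univ : Finset ι).card C [0] := by
  obtain ⟨p, hp⟩ := Module.Dual.exists_forall_ne_zero_of_forall_exists f fun i => by
    by_contra h
    push Not at h
    exact h0 i (LinearMap.ext h)
  have hC : ∀ i, SignType.sign (f i p) ≠ 0 := fun i => by
    rw [ne_eq, sign_eq_zero_iff]
    exact hp i
  have hz : zer (0 : ι → SignType) = Finset.univ := by
    unfold zer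
    exact Finset.filter_true_of_mem fun i _ => rfl
  refine ⟨fun i => SignType.sign (f i p), ⟨⟨p, fun i => rfl⟩, hC⟩, fun F hF => ?_, fun F hF i => ?_,
    fun F hF h => ?_, List.pairwise_singleton _ _, ?_, ?_⟩
  · rw [List.mem_singleton] at hF
    subst hF
    exact ⟨0, fun i => by rw [map_zero, sign_zero]; rfl⟩
  · rw [List.mem_singleton] at hF
    subst hF
    exact Or.inl rfl
  · rw [List.mem_singleton] at hF
    subst hF
    obtain ⟨i⟩ := ‹Nonempty ι›
    exact hC i (congrFun h i).symm
  · simp only [List.map_cons, List.map_nil, List.sum_cons, List.sum_nil, add_zero, hz]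
    rfl
  · simp only [List.map_cons, List.map_nil, List.sum_cons, List.sum_nil, add_zero, hz]

end flags

/-! ### The theorem -/

/-- the set of the flags -/
def flagSet {d : ℕ} (A : Arrangement d) (k l : ℕ) :
    Set ((A.ι → SignType) × List (A.ι → SignType)) := {c | IsFlag A.form k l c.1 c.2}

lemma mha_free {d : ℕ} (A : Arrangement d) (k l : ℕ) :
    Module.Finite ℤ (MHA A k l) ∧ Module.Free ℤ (MHA A k l) := mh_free A k l

lemma mha_rank {d : ℕ} (A : Arrangement d) [DecidableEq A.ι] (k l : ℕ) :
    (finrank ℤ (MHA A k l) : ℤ) =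
    ∑ lam ∈ Finset.piAntidiag (Finset.univ : Finset A.ι) l,
      if k = kap A.form lam then ng A.form lam else 0 := finrank_MH A k l

lemma rank_flags {d : ℕ} (A : Arrangement d) (k l : ℕ) :
    (flagSet A k l).Finite ∧ finrank ℤ (MHA A k l) = (flagSet A k l).ncard := by
  classical
  obtain ⟨h1, h2⟩ := flags_card (f := A.form) k l
  refine ⟨h1, ?_⟩
  have h3 := mha_rank A k l
  rw [← good_card, ← h2] at h3
  exact_mod_cast h3

lemma subsingleton_iff {d : ℕ} (A : Arrangement d) (k l : ℕ) :
    Subsingleton (MHA A k l) ↔ ∀ C L, ¬ IsFlag A.form k l C L := by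
  obtain ⟨h1, h2⟩ := mha_free A k l
  obtain ⟨h3, h4⟩ := rank_flags A k l
  rw [← finrank_eq_zero_iff_of_free (R := ℤ), h4, Set.ncard_eq_zero h3,
    Set.eq_empty_iff_forall_notMem]
  exact ⟨fun h C L hCL => h (C, L) hCL, fun h c hc => h c.1 c.2 hc⟩

lemma mha_latticeSum {d : ℕ} (A : Arrangement d) (k l : ℕ) :
    (finrank ℤ (MHA A k l) : ℤ) = latticeSum A k l := by
  classical
  rw [latticeSum_eq]
  exact mha_rank A k l

/-- `MH_{k,l}(A) ≠ 0` iff `L(A)` has a multichain with the given sums. -/
lemma nontrivial_iff {d : ℕ} (A : Arrangement d) (k l : ℕ) :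
    Nontrivial (MHA A k l) ↔ ∃ x, IsMultichain A k l x := by
  obtain ⟨h1, h2⟩ := mha_free A k l
  rw [← not_subsingleton_iff_nontrivial, ← finrank_eq_zero_iff_of_free (R := ℤ)]
  have h3 : finrank ℤ (MHA A k l) = 0 ↔ latticeSum A k l = 0 := by
    rw [← mha_latticeSum]
    exact Int.natCast_eq_zero.symm
  rw [h3, latticeSum_eq_zero, not_not]

/-- The magnitude homology is concentrated on the diagonal iff `A` is Boolean. -/
lemma diagonal_iff {d : ℕ} (A : Arrangement d) :
    (∀ k l, k ≠ l → Subsingleton (MHA A k l)) ↔ LinearIndependent ℝ A.form := by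
  classical
  refine ⟨fun h => ?_, fun h k l hkl => ?_⟩
  · by_contra hf
    have h1 := rk_lt_of_not_li hf
    have h2 : Nonempty A.ι := by
      by_contra h3
      rw [not_nonempty_iff] at h3
      exact hf linearIndependent_empty_type
    obtain ⟨C, hC⟩ := exists_flag (f := A.form) A.form_ne_zero
    exact (subsingleton_iff A _ _).1 (h _ _ h1.ne) C _ hC
  · rw [subsingleton_iff]
    exact fun C L hCL => hkl (flag_eq_of_li h hCL)

/-- The magnitude homology groups of an arrangement are free abelian groups of finite rank; the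
rank of `MH_{k,l}` is the number of the multichains of proper faces of chambers with codimensions
summing up to `k` and numbers of hyperplanes summing up to `l`, and it is given by an explicit sum
over the multichains of the intersection lattice. In particular arrangements with isomorphic
intersection lattices have isomorphic magnitude homology groups. -/
theorem result {d : ℕ} (A : Arrangement d) :
    (∀ k l, Module.Finite ℤ (MHA A k l) ∧ Module.Free ℤ (MHA A k l) ∧ (flagSet A k l).Finite ∧
      finrank ℤ (MHA A k l) = (flagSet A k l).ncard ∧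
      (finrank ℤ (MHA A k l) : ℤ) = latticeSum A k l) ∧
    ∀ (d' : ℕ) (A' : Arrangement d'), Nonempty (IntersectionLattice A ≃o IntersectionLattice A') →
      ∀ k l, Nonempty (MHA A k l ≃+ MHA A' k l) := by
  refine ⟨fun k l => ⟨(mha_free A k l).1, (mha_free A k l).2, (rank_flags A k l).1,
    (rank_flags A k l).2, mha_latticeSum A k l⟩, fun d' A' ⟨φ⟩ k l => ?_⟩
  have ψ : Inters A ≃o Inters A' := φ.dual
  exact mh_iso A ψ k l

end Pool.Agent.Results.MP_1c795d_co.RankFormula
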